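import Pool.Agent.Lib.MP_49b2f4_co.N7.Uniq

namespace Pool.Agent.Results.MP_49b2f4_co.OutsideGap

open Pool.Agent.Lib.MP_49b2f4_co

theorem result (h : ℝ → ℝ) :
    (∀ p ∈ Set.Icc (0 : ℝ) 1, h p = gmax p) ↔
    ∀ p ∈ Set.Icc (0 : ℝ) 1, |h p| ≤ 9 * √5 / 50 * (min p (1 - p)) ^ (5 / 2 : ℝ) ∧
      (min p (1 - p) ≤ 5 / 16 → h p = 9 * √5 / 50 * (min p (1 - p)) ^ (5 / 2 : ℝ)) ∧
      (5 / 16 < min p (1 - p) → min p (1 - p) < 45 / 128 → h p = gmax p) ∧
      (45 / 128 ≤ min p (1 - p) → min p (1 - p) ≤ 2 / 5 →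
        h p = 24 / 625 * (5 / 2 * min p (1 - p)) ^ (5 / 2 : ℝ)) ∧
      (2 / 5 ≤ min p (1 - p) → IsGreatest (recVals h p) (h p)) := by
  have g3 : ∀ p : ℝ, 45 / 128 ≤ min p (1 - p) → min p (1 - p) ≤ 2 / 5 →
      gmax p = 24 / 625 * (5 / 2 * min p (1 - p)) ^ (5 / 2 : ℝ) :=
    fun p a b => (N7.gmax_min p).trans (N7.g_pent a b)
  constructor
  · intro e p hp
    have e2 : recVals h p = recVals gmax p := by
      ext v
      refine exists_congr fun x => exists_congr fun t => and_congr_right fun _ =>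
        and_congr_right fun _ => and_congr_right fun ht => and_congr_right fun _ => ?_
      rw [Finset.sum_congr rfl fun i _ => congrArg (x i ^ 5 * ·) (e (t i) (ht i))]
    rw [e p hp, e2]
    refine ⟨?_, (gmax_main p hp.1 hp.2).2, fun _ _ => rfl, g3 p, N7.g_rec2⟩
    rw [abs_of_nonneg (N7.gmax_nn p)]
    exact (gmax_main p hp.1 hp.2).1
  · intro e p hp
    have b1 : ∀ r ∈ Set.Icc (0 : ℝ) 1, 9 * √5 / 50 * (min r (1 - r)) ^ (5 / 2 : ℝ) ≤ 1 := by
      intro r hr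
      have q0 : 0 ≤ min r (1 - r) := le_min hr.1 (by linarith [hr.2])
      have q1 : (min r (1 - r)) ^ (5 / 2 : ℝ) ≤ 1 :=
        Real.rpow_le_one q0 ((min_le_left _ _).trans hr.2) (by norm_num)
      have s5 : √5 ≤ 3 := Real.sqrt_le_iff.2 ⟨by norm_num, by norm_num⟩
      have := Real.rpow_nonneg q0 (5 / 2 : ℝ)
      nlinarith [Real.sqrt_nonneg 5]
    refine N7.g_uniq (fun r hr => (e r hr).1.trans (b1 r hr)) (fun r hr c => ?_)
      (fun r hr => (e r hr).2.2.2.2) hp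
    rcases le_or_gt (min r (1 - r)) (5 / 16) with a | a
    · rw [(e r hr).2.1 a, (gmax_main r hr.1 hr.2).2 a]
    rcases lt_or_ge (min r (1 - r)) (45 / 128) with b | b
    · exact (e r hr).2.2.1 a b
    · rw [(e r hr).2.2.2.1 b c.le, g3 r b c.le]

end Pool.Agent.Results.MP_49b2f4_co.OutsideGap
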